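import Mathlib

/-! Degrees of algebraic numbers and roots of unity of bounded degree. -/

set_option autoImplicit false

open Polynomial IntermediateField

namespace Pool.Agent.H998.LC.Pow

lemma prod_primeFactors_le (n : ℕ) :
    ∏ p ∈ n.primeFactors, p ≤ 2 * (∏ p ∈ n.primeFactors, (p - 1)) ^ 2 := by
  classical
  have h3 : ∀ s : Finset ℕ, (∀ p ∈ s, p.Prime) → 2 ∉ s →
      ∏ p ∈ s, p ≤ (∏ p ∈ s, (p - 1)) ^ 2 := by
    intro s hs h2
    rw [← Finset.prod_pow]
    apply Finset.prod_le_prod'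
    intro p hp
    have hp2 := (hs p hp).two_le
    have hne : p ≠ 2 := fun h => h2 (h ▸ hp)
    obtain ⟨k, rfl⟩ : ∃ k, p = k + 3 := ⟨p - 3, by omega⟩
    have : k + 3 - 1 = k + 2 := by omega
    rw [this]
    nlinarith
  by_cases h2 : 2 ∈ n.primeFactors
  · rw [← Finset.mul_prod_erase _ _ h2, ← Finset.mul_prod_erase _ (fun p => p - 1) h2]
    have := h3 (n.primeFactors.erase 2)
      (fun p hp => Nat.prime_of_mem_primeFactors (Finset.mem_of_mem_erase hp))
      (Finset.notMem_erase _ _)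
    simp only [Nat.add_one_sub_one, one_mul]
    omega
  · have := h3 n.primeFactors (fun p hp => Nat.prime_of_mem_primeFactors hp) h2
    omega

lemma prod_sub_one_le_totient {n : ℕ} (hn : n ≠ 0) :
    ∏ p ∈ n.primeFactors, (p - 1) ≤ n.totient := by
  rw [Nat.totient_eq_prod_factorization hn, Finsupp.prod, Nat.support_factorization]
  apply Finset.prod_le_prod'
  intro p hp
  have : 0 < p ^ (n.factorization p - 1) :=
    pow_pos (Nat.prime_of_mem_primeFactors hp).pos _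
  nlinarith [Nat.zero_le (p - 1)]

lemma le_two_mul_totient_sq {n : ℕ} (hn : n ≠ 0) : n ≤ 2 * n.totient ^ 2 := by
  have h1 := Nat.totient_mul_prod_primeFactors n
  have h2 := prod_primeFactors_le n
  have h3 := prod_sub_one_le_totient hn
  set P := ∏ p ∈ n.primeFactors, (p - 1) with hP
  have hPpos : 0 < P := by
    apply Finset.prod_pos
    intro p hp
    have := (Nat.prime_of_mem_primeFactors hp).two_le
    omega
  have h4 : n * P ≤ (2 * n.totient * P) * P := by
    calc n * P = n.totient * ∏ p ∈ n.primeFactors, p := h1.symm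
      _ ≤ n.totient * (2 * P ^ 2) := Nat.mul_le_mul_left _ h2
      _ = (2 * n.totient * P) * P := by ring
  have h5 := Nat.le_of_mul_le_mul_right h4 hPpos
  calc n ≤ 2 * n.totient * P := h5
    _ ≤ 2 * n.totient * n.totient := Nat.mul_le_mul_left _ h3
    _ = 2 * n.totient ^ 2 := by ring

/-- the algebraic numbers -/
abbrev A := AlgebraicClosure ℚ

noncomputable instance decA : DecidableEq A := Classical.decEq A

instance algA : Algebra.IsAlgebraic ℚ A := by
  have h := AlgebraicClosure.isAlgebraic ℚ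
  have e : (AlgebraicClosure.instAlgebra ℚ : Algebra ℚ (AlgebraicClosure ℚ)) =
    DivisionRing.toRatAlgebra := Subsingleton.elim _ _
  rw [e] at h
  exact h

instance acA : IsAlgClosure ℚ A := ⟨inferInstance, algA⟩

instance normA : Normal ℚ A := IsAlgClosure.normal ℚ A

theorem int (x : A) : IsIntegral ℚ x :=
  (Algebra.IsAlgebraic.isAlgebraic (R := ℚ) (A := A) x).isIntegral

/-- the degree of an algebraic number -/
noncomputable def deg (x : A) : ℕ := (minpoly ℚ x).natDegree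

theorem finrank_adj (x : A) : Module.finrank ℚ ℚ⟮x⟯ = deg x :=
  IntermediateField.adjoin.finrank (int x)

instance fd (x : A) : FiniteDimensional ℚ ℚ⟮x⟯ := IntermediateField.adjoin.finiteDimensional (int x)

theorem deg_le_of_mem {E : IntermediateField ℚ A} [FiniteDimensional ℚ E] {x : A} (hx : x ∈ E) :
    deg x ≤ Module.finrank ℚ E := by
  have h := minpoly.natDegree_le (A := ℚ) (⟨x, hx⟩ : E)
  have e : minpoly ℚ (⟨x, hx⟩ : E) = minpoly ℚ x :=
    (minpoly.algebraMap_eq (algebraMap E A).injective (⟨x, hx⟩ : E)).symm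
  rw [e] at h
  exact h

theorem deg_div (x y : A) : deg (x / y) ≤ deg x * deg y := by
  have h1 : x ∈ ℚ⟮x⟯ ⊔ ℚ⟮y⟯ := (le_sup_left : ℚ⟮x⟯ ≤ _) (mem_adjoin_simple_self ℚ x)
  have h2 : y ∈ ℚ⟮x⟯ ⊔ ℚ⟮y⟯ := (le_sup_right : ℚ⟮y⟯ ≤ _) (mem_adjoin_simple_self ℚ y)
  have h3 : x / y ∈ ℚ⟮x⟯ ⊔ ℚ⟮y⟯ := div_mem h1 h2
  calc deg (x / y) ≤ Module.finrank ℚ ↥(ℚ⟮x⟯ ⊔ ℚ⟮y⟯) := deg_le_of_mem h3
    _ ≤ Module.finrank ℚ ℚ⟮x⟯ * Module.finrank ℚ ℚ⟮y⟯ := IntermediateField.finrank_sup_le _ _
    _ = deg x * deg y := by rw [finrank_adj, finrank_adj]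

theorem deg_aeval (x : A) (P : ℚ[X]) : deg (aeval x P) ≤ deg x := by
  rw [← finrank_adj x]
  apply deg_le_of_mem
  exact (aeval_mem_adjoin_singleton ℚ x : aeval x P ∈ Algebra.adjoin ℚ {x}) |> fun h =>
    (IntermediateField.algebra_adjoin_le_adjoin ℚ {x}) h

theorem deg_inv (x : A) : deg x⁻¹ ≤ deg x := by
  rw [← finrank_adj x]
  exact deg_le_of_mem (inv_mem (mem_adjoin_simple_self ℚ x))

theorem deg_pos (x : A) : 0 < deg x := minpoly.natDegree_pos (int x)

/-- roots of unity of degree at most `B` -/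
def Z (B : ℕ) : Set A := {ζ | (∃ m, 0 < m ∧ ζ ^ m = 1) ∧ deg ζ ≤ B}

theorem Z_sub (B : ℕ) : Z B ⊆
    (((Finset.Icc 1 (2 * B ^ 2)).biUnion fun m => nthRootsFinset m (1 : A) : Finset A) : Set A) := by
  rintro ζ ⟨⟨m, hm, hζ⟩, hd⟩
  have hpos : 0 < orderOf ζ := orderOf_pos_iff.2 (isOfFinOrder_iff_pow_eq_one.2 ⟨m, hm, hζ⟩)
  have hp : IsPrimitiveRoot ζ (orderOf ζ) := IsPrimitiveRoot.orderOf ζ
  have hmin := cyclotomic_eq_minpoly_rat hp hpos
  have hdeg : deg ζ = (orderOf ζ).totient := by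
    unfold deg
    rw [← hmin, natDegree_cyclotomic]
  rw [hdeg] at hd
  have hle : orderOf ζ ≤ 2 * B ^ 2 := by
    have := le_two_mul_totient_sq (n := orderOf ζ) (by omega)
    have h2 : (orderOf ζ).totient ^ 2 ≤ B ^ 2 := Nat.pow_le_pow_left hd 2
    omega
  simp only [Finset.coe_biUnion, Finset.mem_coe, Finset.mem_Icc, Set.mem_iUnion]
  exact ⟨orderOf ζ, ⟨hpos, hle⟩, (mem_nthRootsFinset hpos 1).2 hp.pow_eq_one⟩

theorem Z_finite (B : ℕ) : (Z B).Finite := (Finset.finite_toSet _).subset (Z_sub B)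

theorem Z_card (B : ℕ) : (Z B).ncard ≤ 4 * B ^ 4 := by
  have h1 := Set.ncard_le_ncard (Z_sub B) (Finset.finite_toSet _)
  rw [Set.ncard_coe_finset] at h1
  refine h1.trans (Finset.card_biUnion_le.trans ?_)
  calc ∑ m ∈ Finset.Icc 1 (2 * B ^ 2), (nthRootsFinset m (1 : A)).card
      ≤ ∑ m ∈ Finset.Icc 1 (2 * B ^ 2), 2 * B ^ 2 := by
        refine Finset.sum_le_sum fun m hm => ?_
        rw [Finset.mem_Icc] at hm
        refine le_trans ?_ hm.2
        rw [nthRootsFinset_def]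
        exact (Multiset.toFinset_card_le _).trans (card_nthRoots _ _)
    _ = 4 * B ^ 4 := by
        rw [Finset.sum_const, Nat.card_Icc, smul_eq_mul]
        simp only [Nat.add_sub_cancel]
        ring

end Pool.Agent.H998.LC.Pow
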