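import Pool.Agent.H998.LC.Pow.Base

/-! Low degree factors of compositions. -/

set_option autoImplicit false

open Polynomial IntermediateField

namespace Pool.Agent.H998.LC.Pow

/-- monic irreducible divisors of degree at most `d` -/
def Fac (d : ℕ) (f : ℚ[X]) : Set ℚ[X] :=
  {p | p.Monic ∧ Irreducible p ∧ p ∣ f ∧ p.natDegree ≤ d}

theorem Fac_finite (d : ℕ) {f : ℚ[X]} (hf : f ≠ 0) : (Fac d f).Finite := by
  classical
  refine ((UniqueFactorizationMonoid.normalizedFactors f).toFinset.finite_toSet).subset ?_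
  rintro p ⟨hm, hi, hd, _⟩
  simp only [Finset.mem_coe, Multiset.mem_toFinset]
  rw [UniqueFactorizationMonoid.mem_normalizedFactors_iff' hf]
  exact ⟨hi, hm.normalize_eq_self, hd⟩

/-- fibre of `r` over `β` in bounded degree -/
def Fib (d : ℕ) (r : ℚ[X]) (β : A) : Set A := {α | aeval α r = β ∧ deg α ≤ d}

theorem comp_bound (d M : ℕ) (r h : ℚ[X]) (hh : h ≠ 0)
    (hM : ∀ β : A, (Fib d r β).Finite ∧ (Fib d r β).ncard ≤ M) :
    (Fac d (h.comp r)).ncard ≤ M * (Fac d h).ncard := by
  classical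
  have hT := Fac_finite d hh
  -- a root of each q
  have hroot : ∀ q : ℚ[X], ∃ β : A, Irreducible q → aeval β q = 0 := by
    intro q
    by_cases hq : Irreducible q
    · obtain ⟨β, hβ⟩ := IsAlgClosed.exists_aeval_eq_zero A q hq.degree_pos.ne'
      exact ⟨β, fun _ => hβ⟩
    · exact ⟨0, fun h => absurd h hq⟩
  choose ρ hρ using hroot
  let G : ℚ[X] → Finset ℚ[X] := fun q => (hM (ρ q)).1.toFinset.image (fun α => minpoly ℚ α)
  have hsub : Fac d (h.comp r) ⊆ ((hT.toFinset.biUnion G : Finset ℚ[X]) : Set ℚ[X]) := by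
    rintro p ⟨hm, hi, hd, hdeg⟩
    have hp0 := hρ p hi
    -- the minimal polynomial of r(root)
    set γ : A := aeval (ρ p) r with hγ
    have hdegρ : deg (ρ p) = p.natDegree := by
      unfold deg
      rw [← minpoly.eq_of_irreducible_of_monic hi hp0 hm]
    have hq1 : minpoly ℚ γ ∈ Fac d h := by
      refine ⟨minpoly.monic (int γ), minpoly.irreducible (int γ), ?_, ?_⟩
      · apply minpoly.dvd
        have : aeval (ρ p) (h.comp r) = 0 := by
          obtain ⟨c, hc⟩ := hd
          rw [hc, map_mul, hp0, zero_mul]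
        rwa [aeval_comp] at this
      · calc (minpoly ℚ γ).natDegree = deg γ := rfl
          _ ≤ deg (ρ p) := deg_aeval _ _
          _ = p.natDegree := hdegρ
          _ ≤ d := hdeg
    -- conjugate
    have hq0 := hρ (minpoly ℚ γ) (minpoly.irreducible (int γ))
    have hconj : IsConjRoot ℚ (ρ (minpoly ℚ γ)) γ := by
      have : minpoly ℚ γ = minpoly ℚ (ρ (minpoly ℚ γ)) :=
        minpoly.eq_of_irreducible_of_monic (minpoly.irreducible (int γ)) hq0 (minpoly.monic (int γ))
      exact this.symm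
    obtain ⟨σ, hσ⟩ := isConjRoot_iff_exists_algEquiv.1 hconj
    have hpσ : minpoly ℚ (σ (ρ p)) = p := by
      rw [minpoly.algEquiv_eq σ (ρ p)]
      exact (minpoly.eq_of_irreducible_of_monic hi hp0 hm).symm
    simp only [Finset.coe_biUnion, Set.mem_iUnion, Finset.mem_coe, Set.Finite.mem_toFinset]
    refine ⟨minpoly ℚ γ, hq1, ?_⟩
    simp only [G, Finset.mem_image, Set.Finite.mem_toFinset]
    refine ⟨σ (ρ p), ⟨?_, ?_⟩, hpσ⟩
    · rw [← hσ, hγ]
      exact (Polynomial.aeval_algHom_apply (σ : A →ₐ[ℚ] A) (ρ p) r)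
    · unfold deg
      rw [hpσ]
      exact hdeg
  have h1 := Set.ncard_le_ncard hsub (Finset.finite_toSet _)
  rw [Set.ncard_coe_finset] at h1
  refine h1.trans ?_
  have h2 : (hT.toFinset.biUnion G).card ≤ hT.toFinset.card * M := by
    refine Finset.card_biUnion_le_card_mul _ _ _ fun q _ => ?_
    refine Finset.card_image_le.trans ?_
    rw [← Set.ncard_eq_toFinset_card _ (hM (ρ q)).1]
    exact (hM (ρ q)).2
  rw [← Set.ncard_eq_toFinset_card _ hT] at h2
  rw [Nat.mul_comm M]
  exact h2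

/-- constant case -/
theorem comp_const (d : ℕ) (r h : ℚ[X]) (hr : r.natDegree = 0) (hne : h.comp r ≠ 0) :
    Fac d (h.comp r) = ∅ := by
  obtain ⟨c, rfl⟩ := natDegree_eq_zero.1 hr
  rw [comp_C] at hne ⊢
  have hc : (h.eval c) ≠ 0 := by
    intro h0; apply hne; rw [h0, C_0]
  ext p
  simp only [Fac, Set.mem_ofPred_eq, Set.mem_empty_iff_false, iff_false]
  rintro ⟨_, hi, hd, _⟩
  exact hi.not_isUnit (isUnit_of_dvd_unit hd (isUnit_C.2 (isUnit_iff_ne_zero.2 hc)))

/-- small degree -/
theorem fib_poly (d D : ℕ) (r : ℚ[X]) (h0 : r.natDegree ≠ 0) (hD : r.natDegree ≤ D) (β : A) :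
    (Fib d r β).Finite ∧ (Fib d r β).ncard ≤ D := by
  classical
  set g : A[X] := r.map (algebraMap ℚ A) - C β with hg
  have hdeg : g.natDegree = r.natDegree := by
    rw [hg, natDegree_sub_C, natDegree_map]
  have hg0 : g ≠ 0 := by
    intro h; rw [h, natDegree_zero] at hdeg; exact h0 hdeg.symm
  have hsub : Fib d r β ⊆ (g.roots.toFinset : Set A) := by
    rintro α ⟨hα, _⟩
    rw [Finset.mem_coe, Multiset.mem_toFinset, mem_roots hg0]
    show eval α g = 0
    rw [hg, eval_sub, eval_C, eval_map_algebraMap, hα, sub_self]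
  refine ⟨(Finset.finite_toSet _).subset hsub, ?_⟩
  have h1 := Set.ncard_le_ncard hsub (Finset.finite_toSet _)
  rw [Set.ncard_coe_finset] at h1
  calc (Fib d r β).ncard ≤ g.roots.toFinset.card := h1
    _ ≤ Multiset.card g.roots := Multiset.toFinset_card_le _
    _ ≤ g.natDegree := card_roots' _
    _ ≤ D := by rw [hdeg]; exact hD

/-- power maps -/
theorem fib_pow (d N : ℕ) (hd : 1 ≤ d) (hN : 1 ≤ N) (β : A) :
    (Fib d (X ^ N) β).Finite ∧ (Fib d (X ^ N) β).ncard ≤ 4 * d ^ 8 := by
  classical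
  have hd8 : 1 ≤ d ^ 8 := Nat.one_le_pow _ _ hd
  by_cases hβ : β = 0
  · have hsub : Fib d (X ^ N) β ⊆ {0} := by
      rintro α ⟨hα, _⟩
      rw [map_pow, aeval_X, hβ] at hα
      exact pow_eq_zero_iff (by omega) |>.1 hα
    refine ⟨(Set.finite_singleton _).subset hsub, ?_⟩
    have := Set.ncard_le_ncard hsub (Set.finite_singleton _)
    rw [Set.ncard_singleton] at this
    omega
  · by_cases hne : (Fib d (X ^ N) β).Nonempty
    · obtain ⟨α₀, hα₀, hd₀⟩ := hne
      rw [map_pow, aeval_X] at hα₀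
      have h0 : α₀ ≠ 0 := by
        rintro rfl
        rw [zero_pow (by omega)] at hα₀
        exact hβ hα₀.symm
      have hmap : Set.MapsTo (fun α => α / α₀) (Fib d (X ^ N) β) (Z (d * d)) := by
        rintro α ⟨hα, hdα⟩
        rw [map_pow, aeval_X] at hα
        refine ⟨⟨N, hN, ?_⟩, ?_⟩
        · show (α / α₀) ^ N = 1
          rw [div_pow, hα, hα₀, div_self hβ]
        · exact (deg_div α α₀).trans (Nat.mul_le_mul hdα hd₀)
      have hinj : Set.InjOn (fun α => α / α₀) (Fib d (X ^ N) β) := by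
        intro a _ b _ hab
        exact (div_left_inj' h0).1 hab
      have hfin : (Fib d (X ^ N) β).Finite :=
        Set.Finite.of_injOn hmap hinj (Z_finite _)
      refine ⟨hfin, ?_⟩
      have h1 := Set.ncard_le_ncard_of_injOn _ hmap hinj (Z_finite _)
      refine h1.trans ((Z_card _).trans ?_)
      apply le_of_eq; ring
    · rw [Set.not_nonempty_iff_eq_empty] at hne
      rw [hne]
      exact ⟨Set.finite_empty, by rw [Set.ncard_empty]; exact Nat.zero_le _⟩

end Pool.Agent.H998.LC.Pow
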