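import Pool.Agent.H998.LC.Pow.Comp

/-! Dickson (Chebyshev) maps, and towers. -/

set_option autoImplicit false

open Polynomial IntermediateField

namespace Pool.Agent.H998.LC.Pow

theorem deg_quad (α u : A) (h : u ^ 2 - α * u + 1 = 0) : deg u ≤ 2 * deg α := by
  let E := ℚ⟮α⟯
  let a : E := ⟨α, mem_adjoin_simple_self ℚ α⟩
  let g : E[X] := X ^ 2 - C a * X + 1
  have hg : aeval u g = 0 := by
    simp only [g, map_add, map_sub, map_pow, map_mul, aeval_X, aeval_C, map_one]
    exact h
  have hgd : g.natDegree = 2 := by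
    have : g = X ^ 2 - C a * X + C 1 := by simp only [g, C_1]
    rw [this]
    compute_degree!
  have hg0 : g ≠ 0 := by
    intro h0; rw [h0, natDegree_zero] at hgd; exact absurd hgd (by norm_num)
  have hint : IsIntegral E u := (int u).tower_top
  have h1 : (minpoly E u).natDegree ≤ 2 := by
    rw [← hgd]
    exact natDegree_le_of_dvd (minpoly.dvd E u hg) hg0
  let F := IntermediateField.adjoin E {u}
  have hF : Module.finrank E F = (minpoly E u).natDegree := IntermediateField.adjoin.finrank hint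
  have : FiniteDimensional E F := IntermediateField.adjoin.finiteDimensional hint
  have hfd : FiniteDimensional ℚ F := FiniteDimensional.trans ℚ E F
  have hfd' : FiniteDimensional ℚ (F.restrictScalars ℚ) := hfd
  have hmem : u ∈ F.restrictScalars ℚ := mem_adjoin_simple_self E u
  calc deg u ≤ Module.finrank ℚ (F.restrictScalars ℚ) := deg_le_of_mem hmem
    _ = Module.finrank ℚ F := rfl
    _ = Module.finrank ℚ E * Module.finrank E F := (Module.finrank_mul_finrank ℚ E F).symm
    _ = deg α * (minpoly E u).natDegree := by rw [finrank_adj, hF]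
    _ ≤ deg α * 2 := Nat.mul_le_mul_left _ h1
    _ = 2 * deg α := Nat.mul_comm _ _

theorem exists_u (α : A) : ∃ u : A, u ≠ 0 ∧ u + u⁻¹ = α ∧ deg u ≤ 2 * deg α := by
  let g : A[X] := X ^ 2 - C α * X + 1
  have hgd : g.natDegree = 2 := by
    have : g = X ^ 2 - C α * X + C 1 := by simp only [g, C_1]
    rw [this]
    compute_degree!
  have hdeg : g.degree ≠ 0 := by
    intro h
    rw [natDegree_eq_of_degree_eq_some h] at hgd
    exact absurd hgd (by norm_num)
  obtain ⟨u, hu⟩ := IsAlgClosed.exists_root g hdeg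
  have hu' : u ^ 2 - α * u + 1 = 0 := by
    have := hu
    simp only [g, IsRoot.def, eval_add, eval_sub, eval_pow, eval_X, eval_mul, eval_C, eval_one] at this
    exact this
  have h0 : u ≠ 0 := by
    rintro rfl
    simp at hu'
  refine ⟨u, h0, ?_, deg_quad α u hu'⟩
  field_simp
  linear_combination hu'

theorem aeval_dickson (α u : A) (h0 : u ≠ 0) (h : u + u⁻¹ = α) (N : ℕ) :
    aeval α (dickson 1 (1 : ℚ) N) = u ^ N + (u ^ N)⁻¹ := by
  rw [← h, ← eval_map_algebraMap, map_dickson, map_one,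
    dickson_one_one_eval_add_inv u u⁻¹ (mul_inv_cancel₀ h0) N, inv_pow]

theorem fib_dickson (d N : ℕ) (hN : 1 ≤ N) (β : A) :
    (Fib d (dickson 1 (1 : ℚ) N) β).Finite ∧
      (Fib d (dickson 1 (1 : ℚ) N) β).ncard ≤ 1024 * d ^ 8 := by
  classical
  by_cases hne : (Fib d (dickson 1 (1 : ℚ) N) β).Nonempty
  · obtain ⟨α₀, hα₀, hd₀⟩ := hne
    obtain ⟨w, hw0, hw, hwd⟩ := exists_u α₀
    have key : ∀ α : A, ∃ u : A, α ∈ Fib d (dickson 1 (1 : ℚ) N) β →
        (u + u⁻¹ = α ∧ u ^ N = w ^ N ∧ deg u ≤ 2 * d) := by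
      intro α
      by_cases hα : α ∈ Fib d (dickson 1 (1 : ℚ) N) β
      · obtain ⟨u, hu0, hu, hud⟩ := exists_u α
        have e1 : u ^ N + (u ^ N)⁻¹ = w ^ N + (w ^ N)⁻¹ := by
          rw [← aeval_dickson α u hu0 hu N, ← aeval_dickson α₀ w hw0 hw N, hα.1, hα₀]
        have hP : u ^ N ≠ 0 := pow_ne_zero _ hu0
        have hQ : w ^ N ≠ 0 := pow_ne_zero _ hw0
        have e2 : (u ^ N - w ^ N) * (u ^ N * w ^ N - 1) = 0 := by
          field_simp at e1
          linear_combination e1
        rcases mul_eq_zero.1 e2 with h | h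
        · exact ⟨u, fun _ => ⟨hu, sub_eq_zero.1 h, hud.trans (Nat.mul_le_mul_left _ hα.2)⟩⟩
        · refine ⟨u⁻¹, fun _ => ⟨by rw [inv_inv, add_comm]; exact hu, ?_,
            (deg_inv u).trans (hud.trans (Nat.mul_le_mul_left _ hα.2))⟩⟩
          rw [inv_pow]
          field_simp
          linear_combination -h
      · exact ⟨0, fun h => absurd h hα⟩
    choose u hu using key
    have hmap : Set.MapsTo (fun α => u α / w) (Fib d (dickson 1 (1 : ℚ) N) β)
        (Z ((2 * d) * (2 * d))) := by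
      intro α hα
      obtain ⟨h1, h2, h3⟩ := hu α hα
      refine ⟨⟨N, hN, ?_⟩, ?_⟩
      · show (u α / w) ^ N = 1
        rw [div_pow, h2, div_self (pow_ne_zero _ hw0)]
      · exact (deg_div _ _).trans (Nat.mul_le_mul h3 (hwd.trans (Nat.mul_le_mul_left _ hd₀)))
    have hinj : Set.InjOn (fun α => u α / w) (Fib d (dickson 1 (1 : ℚ) N) β) := by
      intro a ha b hb hab
      have hab' : u a = u b := (div_left_inj' hw0).1 hab
      rw [← (hu a ha).1, ← (hu b hb).1, hab']
    refine ⟨Set.Finite.of_injOn hmap hinj (Z_finite _), ?_⟩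
    have h1 := Set.ncard_le_ncard_of_injOn _ hmap hinj (Z_finite _)
    refine h1.trans ((Z_card _).trans ?_)
    apply le_of_eq; ring
  · rw [Set.not_nonempty_iff_eq_empty] at hne
    rw [hne]
    exact ⟨Set.finite_empty, by rw [Set.ncard_empty]; exact Nat.zero_le _⟩

end Pool.Agent.H998.LC.Pow
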